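import Mathlib

/-!
Integrals of `|g|` over vertical segments to the right of the critical line.
-/

set_option autoImplicit false

open MeasureTheory Filter Topology Set Complex
open scoped ComplexConjugate

namespace Pool.Agent.K4H72.MZ

/-- the half plane `Re s > 1/2 - η` -/
def Hp (η : ℝ) : Set ℂ := {s | 1 / 2 - η < s.re}

lemma Hp_open (η : ℝ) : IsOpen (Hp η) := isOpen_lt continuous_const Complex.continuous_re

lemma mk_eq (x u : ℝ) : (⟨x, u⟩ : ℂ) = (x : ℂ) + (u : ℂ) * I := by
  apply Complex.ext <;> simp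

/-- the direction of `g` on a vertical line -/
noncomputable def ph (g : ℂ → ℂ) (x u : ℝ) : ℂ := conj (g ⟨1 / 2 + x, u⟩) / ‖g ⟨1 / 2 + x, u⟩‖

lemma ph_norm (g : ℂ → ℂ) (x u : ℝ) : ‖ph g x u‖ ≤ 1 := by
  unfold ph
  rw [norm_div, Complex.norm_conj, Complex.norm_real, norm_norm]
  exact div_self_le_one _

lemma ph_mul (g : ℂ → ℂ) (x u : ℝ) : g ⟨1 / 2 + x, u⟩ * ph g x u = (‖g ⟨1 / 2 + x, u⟩‖ : ℂ) := by
  unfold ph
  by_cases h : g ⟨1 / 2 + x, u⟩ = 0
  · rw [h, norm_zero]
    simp
  · have h1 : (‖g ⟨1 / 2 + x, u⟩‖ : ℂ) ≠ 0 := by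
      rw [Complex.ofReal_ne_zero]
      exact norm_ne_zero_iff.2 h
    rw [mul_div_assoc', Complex.mul_conj, div_eq_iff h1, Complex.normSq_eq_norm_sq]
    push_cast
    ring

lemma line_cont {g : ℂ → ℂ} {η : ℝ} (hg : DifferentiableOn ℂ g (Hp η)) {x : ℝ} (hx : -η < x) :
    Continuous fun u : ℝ => g ⟨1 / 2 + x, u⟩ := by
  have h1 : ContinuousOn g (Hp η) := hg.continuousOn
  refine h1.comp_continuous ?_ (fun u => ?_)
  · have : Continuous (fun u : ℝ => ((1 / 2 + x : ℝ) : ℂ) + (u : ℂ) * I) := by fun_prop
    exact this.congr (fun u => (mk_eq _ _).symm)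
  · show 1 / 2 - η < 1 / 2 + x
    linarith

lemma ph_meas {g : ℂ → ℂ} {η : ℝ} (hg : DifferentiableOn ℂ g (Hp η)) {x : ℝ} (hx : -η < x) :
    Measurable (ph g x) := by
  have h := (line_cont hg hx)
  unfold ph
  exact ((Complex.continuous_conj.comp h).measurable).div
    ((Complex.continuous_ofReal.comp h.norm).measurable)

/-- the averaged function -/
noncomputable def Av (g : ℂ → ℂ) (x a c : ℝ) (z : ℂ) : ℂ := ∫ u in a..c, g (1 / 2 + z + u * I) * ph g x u

lemma Av_diff {g : ℂ → ℂ} {η : ℝ} (hη : 0 < η) (hg : DifferentiableOn ℂ g (Hp η)) {x a c : ℝ} (hx : 0 ≤ x) {z0 : ℂ}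
    (hz : 0 ≤ z0.re) : DifferentiableAt ℂ (Av g x a c) z0 := by
  have hmem : ∀ z ∈ Metric.closedBall z0 (η / 2), ∀ u : ℝ, (1 / 2 + z + u * I) ∈ Hp η := by
    intro z hz' u
    rw [mem_closedBall_iff_norm] at hz'
    have h1 := (Complex.abs_re_le_norm (z - z0)).trans hz'
    rw [Complex.sub_re, abs_le] at h1
    show 1 / 2 - η < (1 / 2 + z + u * I).re
    have : (1 / 2 + z + u * I).re = 1 / 2 + z.re := by simp
    rw [this]
    linarith
  have hd : ContinuousOn (deriv g) (Hp η) := (hg.deriv (Hp_open η)).continuousOn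
  have hK : IsCompact (Metric.closedBall z0 (η / 2) ×ˢ uIcc a c) :=
    (isCompact_closedBall _ _).prod isCompact_uIcc
  obtain ⟨M, hM⟩ := hK.exists_bound_of_continuousOn (f := fun p : ℂ × ℝ => deriv g (1 / 2 + p.1 + p.2 * I))
    (hd.comp (by fun_prop) (fun p hp => hmem p.1 hp.1 p.2))
  have hlc : ∀ z ∈ Metric.closedBall z0 (η / 2), Continuous fun u : ℝ => g (1 / 2 + z + u * I) := by
    intro z hz'
    exact hg.continuousOn.comp_continuous (by fun_prop) (hmem z hz')
  have hmeas : ∀ z ∈ Metric.closedBall z0 (η / 2), AEStronglyMeasurable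
      (fun u : ℝ => g (1 / 2 + z + u * I) * ph g x u) (volume.restrict (uIoc a c)) := by
    intro z hz'
    exact ((hlc z hz').measurable.mul (ph_meas hg (by linarith))).aestronglyMeasurable
  have hz0 : z0 ∈ Metric.closedBall z0 (η / 2) := Metric.mem_closedBall_self (by linarith)
  have key := intervalIntegral.hasDerivAt_integral_of_dominated_loc_of_deriv_le (𝕜 := ℂ) (μ := volume)
    (a := a) (b := c) (bound := fun _ => M) (F := fun z u => g (1 / 2 + z + u * I) * ph g x u)
    (F' := fun z u => deriv g (1 / 2 + z + u * I) * ph g x u) (x₀ := z0)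
    (s := Metric.closedBall z0 (η / 2)) (Metric.closedBall_mem_nhds _ (by linarith))
    (by
      filter_upwards [Metric.closedBall_mem_nhds z0 (by linarith : (0:ℝ) < η / 2)] with z hz'
      exact hmeas z hz')
    (by
      obtain ⟨B, hB⟩ := isCompact_uIcc.exists_bound_of_continuousOn (s := uIcc a c)
        (f := fun u : ℝ => g (1 / 2 + z0 + u * I)) (hlc z0 hz0).continuousOn
      rw [intervalIntegrable_iff]
      refine Measure.integrableOn_of_bounded (M := B) ?_
        ((hlc z0 hz0).measurable.mul (ph_meas hg (by linarith))).aestronglyMeasurable ?_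
      · rw [Real.volume_uIoc]
        exact ENNReal.ofReal_ne_top
      · rw [ae_restrict_iff' measurableSet_uIoc]
        refine Eventually.of_forall fun u hu => ?_
        rw [norm_mul]
        calc ‖g (1 / 2 + z0 + u * I)‖ * ‖ph g x u‖ ≤ ‖g (1 / 2 + z0 + u * I)‖ * 1 := by
              gcongr
              exact ph_norm g x u
          _ ≤ B := by
              rw [mul_one]
              exact hB u (uIoc_subset_uIcc hu))
    (by
      refine (Measurable.mul ?_ (ph_meas hg (by linarith))).aestronglyMeasurable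
      exact (hd.comp_continuous (by fun_prop) (hmem z0 hz0)).measurable)
    (by
      refine Eventually.of_forall fun u hu z hz' => ?_
      rw [norm_mul]
      calc ‖deriv g (1 / 2 + z + u * I)‖ * ‖ph g x u‖ ≤ ‖deriv g (1 / 2 + z + u * I)‖ * 1 := by
            gcongr
            exact ph_norm g x u
        _ ≤ M := by
            rw [mul_one]
            exact hM (z, u) ⟨hz', uIoc_subset_uIcc hu⟩)
    intervalIntegrable_const
    (by
      refine Eventually.of_forall fun u hu z hz' => ?_
      have h1 : HasDerivAt g (deriv g (1 / 2 + z + u * I)) (1 / 2 + z + u * I) :=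
        (hg.differentiableAt ((Hp_open η).mem_nhds (hmem z hz' u))).hasDerivAt
      have h2 : HasDerivAt (fun z : ℂ => 1 / 2 + z + u * I) 1 z := by
        have h := ((hasDerivAt_id' z).const_add (1 / 2 : ℂ)).add_const (u * I)
        exact h
      have h3 := (h1.comp z h2).mul_const (ph g x u)
      simpa using h3)
  exact key.2.differentiableAt

/-- **The integral of `|g|` over a vertical segment to the right of the critical line is at most its
integral over the critical line.** -/
theorem vert {g : ℂ → ℂ} {η : ℝ} (hη : 0 < η) (hg : DifferentiableOn ℂ g (Hp η)) {C : ℝ} (hb : ∀ s : ℂ, 1 / 2 ≤ s.re → ‖g s‖ ≤ C)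
    (hint : Integrable fun u : ℝ => ‖g ⟨1 / 2, u⟩‖) {x a c : ℝ} (hx : 0 ≤ x) (hac : a ≤ c) :
    ∫ u in a..c, ‖g ⟨1 / 2 + x, u⟩‖ ≤ ∫ u, ‖g ⟨1 / 2, u⟩‖ := by
  set J : ℝ := ∫ u, ‖g ⟨1 / 2, u⟩‖ with hJ
  have hbd : ∀ z : ℂ, 0 ≤ z.re → ‖Av g x a c z‖ ≤ C * |c - a| := by
    intro z hz
    unfold Av
    refine intervalIntegral.norm_integral_le_of_norm_le_const fun u _ => ?_
    rw [norm_mul]
    have h1 : 1 / 2 ≤ (1 / 2 + z + u * I).re := by
      have : (1 / 2 + z + u * I).re = 1 / 2 + z.re := by simp
      rw [this]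
      linarith
    calc ‖g (1 / 2 + z + u * I)‖ * ‖ph g x u‖ ≤ ‖g (1 / 2 + z + u * I)‖ * 1 := by
          gcongr
          exact ph_norm g x u
      _ ≤ C := by
          rw [mul_one]
          exact hb _ h1
  have hC : 0 ≤ C := (norm_nonneg _).trans (hb (1 / 2) (by norm_num))
  have hd : ∀ z : ℂ, 0 ≤ z.re → DifferentiableAt ℂ (Av g x a c) z := fun z hz => Av_diff hη hg hx hz
  have key := PhragmenLindelof.right_half_plane_of_bounded_on_real (f := Av g x a c) (C := J)
    (z := (x : ℂ))
    ⟨fun z hz => (hd z (le_of_lt hz)).differentiableWithinAt, fun z hz => by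
      have hz' : z ∈ {z : ℂ | 0 ≤ z.re} := by
        rw [Complex.closure_setOfPred_lt_re] at hz
        exact hz
      exact (hd z hz').continuousAt.continuousWithinAt⟩
    ⟨1, by norm_num, 0, by
      refine Asymptotics.IsBigO.of_bound (C * |c - a|) ?_
      rw [Filter.eventually_inf_principal]
      refine Eventually.of_forall fun z hz => ?_
      have : ‖Real.exp (0 * ‖z‖ ^ (1:ℝ))‖ = 1 := by simp
      rw [this, mul_one]
      exact hbd z (le_of_lt hz)⟩
    ⟨C * |c - a|, by
      rw [eventually_map]
      filter_upwards [eventually_ge_atTop 0] with y hy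
      exact hbd y (by simpa using hy)⟩
    (fun y => by
      unfold Av
      refine (intervalIntegral.norm_integral_le_integral_norm hac).trans ?_
      have hcl : Continuous fun u : ℝ => ‖g ⟨1 / 2, u⟩‖ := by
        have := (line_cont hg (x := 0) (by linarith)).norm
        simpa using this
      have h1 : ∫ u in a..c, ‖g (1 / 2 + (y : ℂ) * I + u * I) * ph g x u‖ ≤
          ∫ u in a..c, ‖g ⟨1 / 2, y + u⟩‖ := by
        have e : ∀ u : ℝ, (1 / 2 + (y : ℂ) * I + u * I) = ⟨1 / 2, y + u⟩ := by
          intro u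
          apply Complex.ext <;> simp
        refine intervalIntegral.integral_mono_on_of_le_Ioo hac ?_ ?_ (fun u _ => ?_)
        · have hm : Measurable fun u : ℝ => g (1 / 2 + (y : ℂ) * I + u * I) * ph g x u := by
            refine Measurable.mul ?_ (ph_meas hg (by linarith))
            have : (fun u : ℝ => g (1 / 2 + (y : ℂ) * I + u * I)) = fun u : ℝ => g ⟨1 / 2, y + u⟩ := by
              funext u
              rw [e u]
            rw [this]
            have h0 := (line_cont hg (x := 0) (by linarith))
            have h0' : Continuous fun u : ℝ => g ⟨1 / 2, u⟩ := by simpa using h0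
            exact (h0'.comp (continuous_const.add continuous_id)).measurable
          rw [intervalIntegrable_iff]
          refine Measure.integrableOn_of_bounded (M := C) ?_ hm.norm.aestronglyMeasurable ?_
          · rw [Real.volume_uIoc]
            exact ENNReal.ofReal_ne_top
          · refine Eventually.of_forall fun u => ?_
            rw [norm_norm, norm_mul]
            calc ‖g (1 / 2 + (y : ℂ) * I + u * I)‖ * ‖ph g x u‖ ≤
                  ‖g (1 / 2 + (y : ℂ) * I + u * I)‖ * 1 := by
                  gcongr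
                  exact ph_norm g x u
              _ ≤ C := by
                  rw [mul_one]
                  exact hb _ (by simp)
        · exact (hcl.comp (continuous_const.add continuous_id)).intervalIntegrable _ _
        · rw [norm_mul, e u]
          calc ‖g ⟨1 / 2, y + u⟩‖ * ‖ph g x u‖ ≤ ‖g ⟨1 / 2, y + u⟩‖ * 1 := by
                gcongr
                exact ph_norm g x u
            _ = _ := mul_one _
      refine h1.trans ?_
      rw [intervalIntegral.integral_comp_add_left (fun u => ‖g ⟨1 / 2, u⟩‖) y,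
        intervalIntegral.integral_of_le (by linarith)]
      exact setIntegral_le_integral hint (Eventually.of_forall fun u => norm_nonneg _))
    (by simpa using hx)
  have e1 : Av g x a c x = ((∫ u in a..c, ‖g ⟨1 / 2 + x, u⟩‖ : ℝ) : ℂ) := by
    unfold Av
    rw [← intervalIntegral.integral_ofReal]
    refine intervalIntegral.integral_congr fun u _ => ?_
    have e : (1 / 2 + (x : ℂ) + u * I) = ⟨1 / 2 + x, u⟩ := by
      apply Complex.ext <;> simp
    show g (1 / 2 + (x : ℂ) + u * I) * ph g x u = _
    rw [e, ph_mul]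
  rw [e1, Complex.norm_real] at key
  exact (le_abs_self _).trans key

end Pool.Agent.K4H72.MZ
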