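import Mathlib
import Pool.Agent.K4H72.MZ.Vert
import Pool.Agent.H402R2.SubMean

/-!
Local bounds for powers of a function of finite order by weighted integrals over the critical line.
-/

set_option autoImplicit false

open MeasureTheory Filter Topology Set Complex
open scoped ENNReal

namespace Pool.Agent.K4H72.MZ

/-- the weighted integral over the critical line -/
noncomputable def JJ (f : ℂ → ℂ) (k : ℕ) (ℓ t0 : ℝ) (M : ℕ) : ℝ :=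
  ∫ u : ℝ, ‖f ⟨1 / 2, u⟩‖ ^ k / (1 + ((u - t0) * ℓ) ^ 2) ^ M

/-- the weight -/
noncomputable def aw (ℓ t0 : ℝ) (s : ℂ) : ℂ := 1 + (s - ⟨1 / 2, t0⟩) * ℓ

lemma aw_sq (ℓ t0 x u : ℝ) : ‖aw ℓ t0 ⟨1 / 2 + x, u⟩‖ ^ 2 = (1 + x * ℓ) ^ 2 + ((u - t0) * ℓ) ^ 2 := by
  rw [← Complex.normSq_eq_norm_sq, Complex.normSq_apply]
  unfold aw
  simp
  ring

/-- the damped power -/
noncomputable def gg (f : ℂ → ℂ) (k : ℕ) (ℓ t0 : ℝ) (M : ℕ) (s : ℂ) : ℂ := f s ^ k / aw ℓ t0 s ^ (2 * M)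

lemma gg_norm (f : ℂ → ℂ) (k : ℕ) (ℓ t0 : ℝ) (M : ℕ) (x u : ℝ) :
    ‖gg f k ℓ t0 M ⟨1 / 2 + x, u⟩‖ = ‖f ⟨1 / 2 + x, u⟩‖ ^ k / ((1 + x * ℓ) ^ 2 + ((u - t0) * ℓ) ^ 2) ^ M := by
  unfold gg
  rw [norm_div, norm_pow, norm_pow, pow_mul, aw_sq]

lemma gg_norm0 (f : ℂ → ℂ) (k : ℕ) (ℓ t0 : ℝ) (M : ℕ) (u : ℝ) :
    ‖gg f k ℓ t0 M ⟨1 / 2, u⟩‖ = ‖f ⟨1 / 2, u⟩‖ ^ k / (1 + ((u - t0) * ℓ) ^ 2) ^ M := by
  have h := gg_norm f k ℓ t0 M 0 u
  simpa using h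

/-- the hypotheses -/
structure Fn (f : ℂ → ℂ) (N : ℕ) (C : ℝ) : Prop where
  diff : DifferentiableOn ℂ f (Hp (1 / 4))
  grow : ∀ s : ℂ, 1 / 2 ≤ s.re → ‖f s‖ ≤ C * (1 + |s.im|) ^ N

variable {f : ℂ → ℂ} {N : ℕ} {C : ℝ}

lemma comp_bd {ℓ t0 : ℝ} (hℓ : 2 ≤ ℓ) (u : ℝ) :
    (1 + |u|) ^ 2 ≤ (2 * (1 + |t0|) ^ 2 + 1) * (1 + ((u - t0) * ℓ) ^ 2) := by
  have h1 : |u| ≤ |t0| + |u - t0| := by
    have := abs_add_le t0 (u - t0)
    simpa using this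
  have h2 : (u - t0) ^ 2 * 4 ≤ ((u - t0) * ℓ) ^ 2 := by
    rw [mul_pow]
    have : (4:ℝ) ≤ ℓ ^ 2 := by nlinarith
    nlinarith [sq_nonneg (u - t0)]
  have h3 : |u - t0| ^ 2 = (u - t0) ^ 2 := sq_abs _
  have h0 := abs_nonneg u
  have h4 := abs_nonneg t0
  have h5 := abs_nonneg (u - t0)
  have h6 : (1 + |u|) ^ 2 ≤ 2 * (1 + |t0|) ^ 2 + 2 * (u - t0) ^ 2 := by
    have : (1 + |u|) ^ 2 ≤ (1 + |t0| + |u - t0|) ^ 2 := by
      apply pow_le_pow_left₀ (by linarith)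
      linarith
    nlinarith [sq_nonneg (1 + |t0| - |u - t0|)]
  nlinarith [sq_nonneg ((u - t0) * ℓ), sq_nonneg (1 + |t0|)]

lemma gg_le (hf : Fn f N C) {k M : ℕ} (hM : N * k + 1 ≤ M) {ℓ t0 : ℝ} (hℓ : 2 ≤ ℓ) {x u : ℝ} (hx : 0 ≤ x) :
    ‖gg f k ℓ t0 M ⟨1 / 2 + x, u⟩‖ ≤
      |C| ^ k * (2 * (1 + |t0|) ^ 2 + 1) ^ (N * k) / (1 + ((u - t0) * ℓ) ^ 2) := by
  rw [gg_norm]
  set X : ℝ := ((u - t0) * ℓ) ^ 2 with hX
  have hX0 : 0 ≤ X := sq_nonneg _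
  set c : ℝ := 2 * (1 + |t0|) ^ 2 + 1 with hc
  have hc1 : 1 ≤ c := by
    rw [hc]
    nlinarith [sq_nonneg (1 + |t0|)]
  have h1 : ‖f ⟨1 / 2 + x, u⟩‖ ^ k ≤ |C| ^ k * (c ^ (N * k) * (1 + X) ^ (N * k)) := by
    have h2 : ‖f ⟨1 / 2 + x, u⟩‖ ≤ |C| * (1 + |u|) ^ N := by
      refine (hf.grow ⟨1 / 2 + x, u⟩ (by show 1 / 2 ≤ 1 / 2 + x; linarith)).trans ?_
      exact mul_le_mul_of_nonneg_right (le_abs_self C) (by positivity)
    calc ‖f ⟨1 / 2 + x, u⟩‖ ^ k ≤ (|C| * (1 + |u|) ^ N) ^ k := pow_le_pow_left₀ (norm_nonneg _) h2 _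
      _ = |C| ^ k * (1 + |u|) ^ (N * k) := by rw [mul_pow, ← pow_mul]
      _ ≤ |C| ^ k * ((1 + |u|) ^ 2) ^ (N * k) := by
          refine mul_le_mul_of_nonneg_left ?_ (by positivity)
          refine pow_le_pow_left₀ (by positivity) ?_ _
          nlinarith [abs_nonneg u]
      _ ≤ |C| ^ k * (c * (1 + X)) ^ (N * k) := by
          refine mul_le_mul_of_nonneg_left ?_ (by positivity)
          exact pow_le_pow_left₀ (by positivity) (comp_bd hℓ u) _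
      _ = _ := by rw [mul_pow]
  have h3 : (1 + X) ^ M ≤ ((1 + x * ℓ) ^ 2 + X) ^ M := by
    refine pow_le_pow_left₀ (by linarith) ?_ _
    have : 1 ≤ 1 + x * ℓ := by nlinarith [mul_nonneg hx (by linarith : (0:ℝ) ≤ ℓ)]
    nlinarith
  have h4 : (1 + X) ^ (N * k + 1) ≤ (1 + X) ^ M := pow_le_pow_right₀ (by linarith) hM
  have hpos : 0 < (1 + X) ^ M := by positivity
  calc ‖f ⟨1 / 2 + x, u⟩‖ ^ k / ((1 + x * ℓ) ^ 2 + X) ^ M
      ≤ (|C| ^ k * (c ^ (N * k) * (1 + X) ^ (N * k))) / (1 + X) ^ (N * k + 1) := by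
        apply div_le_div₀ (by positivity) h1 (by positivity) (h4.trans h3)
    _ = _ := by
        rw [pow_succ]
        field_simp

lemma gg_diff (hf : Fn f N C) (k M : ℕ) {ℓ t0 : ℝ} (hℓ : 2 ≤ ℓ) :
    DifferentiableOn ℂ (gg f k ℓ t0 M) (Hp (1 / (2 * ℓ))) := by
  have hsub : Hp (1 / (2 * ℓ)) ⊆ Hp (1 / 4) := by
    intro s hs
    have hs' : 1 / 2 - 1 / (2 * ℓ) < s.re := hs
    have : 1 / (2 * ℓ) ≤ 1 / 4 := one_div_le_one_div_of_le (by norm_num) (by linarith)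
    show 1 / 2 - 1 / 4 < s.re
    linarith
  unfold gg
  refine ((hf.diff.mono hsub).pow k).div ?_ (fun s hs => ?_)
  · unfold aw
    fun_prop
  · apply pow_ne_zero
    intro h
    have h1 := congrArg Complex.re h
    have h2 : (aw ℓ t0 s).re = 1 + (s.re - 1 / 2) * ℓ := by
      unfold aw
      simp
    rw [h2, Complex.zero_re] at h1
    have hs' : 1 / 2 - 1 / (2 * ℓ) < s.re := hs
    have h3 : -(1 / (2 * ℓ)) * ℓ < (s.re - 1 / 2) * ℓ := by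
      apply mul_lt_mul_of_pos_right _ (by linarith)
      linarith
    have h4 : -(1 / (2 * ℓ)) * ℓ = -(1 / 2) := by
      field_simp
    rw [h4] at h3
    linarith

lemma inv_bd {ℓ t0 : ℝ} (hℓ : 2 ≤ ℓ) (u : ℝ) : (1 + ((u - t0) * ℓ) ^ 2)⁻¹ ≤
    (2 * (1 + |t0|) ^ 2 + 1) * (1 + u ^ 2)⁻¹ := by
  have h := comp_bd (t0 := t0) hℓ u
  have h1 : 1 + u ^ 2 ≤ (1 + |u|) ^ 2 := by
    rw [← sq_abs u]
    nlinarith [abs_nonneg u]
  have h2 : 0 < 1 + ((u - t0) * ℓ) ^ 2 := by positivity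
  have h3 : 0 < 1 + u ^ 2 := by positivity
  rw [inv_eq_one_div, div_le_iff₀ h2]
  have : (2 * (1 + |t0|) ^ 2 + 1) * (1 + u ^ 2)⁻¹ * (1 + ((u - t0) * ℓ) ^ 2) =
      ((2 * (1 + |t0|) ^ 2 + 1) * (1 + ((u - t0) * ℓ) ^ 2)) / (1 + u ^ 2) := by
    field_simp
  rw [this, le_div_iff₀ h3, one_mul]
  linarith

lemma JJ_int (hf : Fn f N C) {k M : ℕ} (hM : N * k + 1 ≤ M) {ℓ t0 : ℝ} (hℓ : 2 ≤ ℓ) :
    Integrable fun u : ℝ => ‖gg f k ℓ t0 M ⟨1 / 2, u⟩‖ := by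
  have hd := gg_diff hf k M (t0 := t0) hℓ
  have hc : Continuous fun u : ℝ => gg f k ℓ t0 M ⟨1 / 2, u⟩ := by
    have := line_cont hd (x := 0) (by
      have : 0 < 1 / (2 * ℓ) := by positivity
      linarith)
    simpa using this
  refine Integrable.mono' (g := fun u => (|C| ^ k * (2 * (1 + |t0|) ^ 2 + 1) ^ (N * k) *
    (2 * (1 + |t0|) ^ 2 + 1)) * (1 + u ^ 2)⁻¹) (integrable_inv_one_add_sq.const_mul _)
    hc.norm.aestronglyMeasurable (Eventually.of_forall fun u => ?_)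
  rw [norm_norm]
  have h := gg_le hf (k := k) (M := M) hM (t0 := t0) hℓ (x := 0) (u := u) le_rfl
  rw [add_zero] at h
  refine h.trans ?_
  rw [div_eq_mul_inv, mul_assoc (|C| ^ k * (2 * (1 + |t0|) ^ 2 + 1) ^ (N * k))]
  have hnn : 0 ≤ |C| ^ k * (2 * (1 + |t0|) ^ 2 + 1) ^ (N * k) := by positivity
  exact mul_le_mul_of_nonneg_left (inv_bd hℓ u) hnn

lemma JJ_nonneg (f : ℂ → ℂ) (k : ℕ) (ℓ t0 : ℝ) (M : ℕ) : 0 ≤ JJ f k ℓ t0 M := by
  unfold JJ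
  refine integral_nonneg fun u => ?_
  positivity

/-- the integral of the power of `|f|` over a short vertical segment to the right -/
lemma right_seg (hf : Fn f N C) {k M : ℕ} (hM : N * k + 1 ≤ M) {ℓ t0 b x : ℝ} (hℓ : 2 ≤ ℓ) (hb : 0 < b)
    (hx : 0 ≤ x) (hxb : x ≤ b) :
    ∫ u in (t0 - b)..(t0 + b), ‖f ⟨1 / 2 + x, u⟩‖ ^ k ≤ (1 + 2 * b * ℓ) ^ (2 * M) * JJ f k ℓ t0 M := by
  have hd := gg_diff hf k M (t0 := t0) hℓ
  have hη : 0 < 1 / (2 * ℓ) := by positivity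
  have h1 := vert hη hd (C := |C| ^ k * (2 * (1 + |t0|) ^ 2 + 1) ^ (N * k))
    (fun s hs => by
      have e : s = ⟨1 / 2 + (s.re - 1 / 2), s.im⟩ := by
        apply Complex.ext <;> simp
      rw [e]
      refine (gg_le hf hM hℓ (by linarith)).trans ?_
      apply div_le_self (by positivity)
      nlinarith [sq_nonneg ((s.im - t0) * ℓ)])
    (JJ_int hf hM hℓ) hx (a := t0 - b) (c := t0 + b) (by linarith)
  have e2 : ∫ u, ‖gg f k ℓ t0 M ⟨1 / 2, u⟩‖ = JJ f k ℓ t0 M := by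
    unfold JJ
    exact integral_congr_ae (Eventually.of_forall fun u => gg_norm0 f k ℓ t0 M u)
  rw [e2] at h1
  have hcf : Continuous fun u : ℝ => f ⟨1 / 2 + x, u⟩ := line_cont hf.diff (by linarith)
  have hcg : Continuous fun u : ℝ => gg f k ℓ t0 M ⟨1 / 2 + x, u⟩ := line_cont hd (by linarith)
  calc ∫ u in (t0 - b)..(t0 + b), ‖f ⟨1 / 2 + x, u⟩‖ ^ k
      ≤ ∫ u in (t0 - b)..(t0 + b), (1 + 2 * b * ℓ) ^ (2 * M) * ‖gg f k ℓ t0 M ⟨1 / 2 + x, u⟩‖ := by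
        refine intervalIntegral.integral_mono_on (by linarith) ((hcf.norm.pow k).intervalIntegrable _ _)
          ((hcg.norm.const_mul _).intervalIntegrable _ _) ?_
        · intro u hu
          rw [gg_norm]
          have h3 : 0 < (1 + x * ℓ) ^ 2 + ((u - t0) * ℓ) ^ 2 := by
            have : 0 < 1 + x * ℓ := by nlinarith [mul_nonneg hx (by linarith : (0:ℝ) ≤ ℓ)]
            positivity
          have h4 : (1 + x * ℓ) ^ 2 + ((u - t0) * ℓ) ^ 2 ≤ (1 + 2 * b * ℓ) ^ 2 := by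
            have hℓ0 : 0 ≤ ℓ := by linarith
            have h5 : |u - t0| ≤ b := by
              rw [abs_le]
              constructor <;> linarith [hu.1, hu.2]
            have h6 : ((u - t0) * ℓ) ^ 2 ≤ (b * ℓ) ^ 2 := by
              rw [← sq_abs, abs_mul, abs_of_nonneg hℓ0]
              exact pow_le_pow_left₀ (by positivity) (mul_le_mul_of_nonneg_right h5 hℓ0) _
            have h7 : 0 ≤ x * ℓ := mul_nonneg hx hℓ0
            have h8 : x * ℓ ≤ b * ℓ := mul_le_mul_of_nonneg_right hxb hℓ0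
            have h9 : 0 ≤ b * ℓ := by positivity
            nlinarith
          rw [mul_div_assoc', le_div_iff₀ (by positivity), mul_comm]
          refine mul_le_mul_of_nonneg_right ?_ (by positivity)
          calc ((1 + x * ℓ) ^ 2 + ((u - t0) * ℓ) ^ 2) ^ M ≤ ((1 + 2 * b * ℓ) ^ 2) ^ M :=
                pow_le_pow_left₀ h3.le h4 _
            _ = _ := by rw [← pow_mul]
    _ = (1 + 2 * b * ℓ) ^ (2 * M) * ∫ u in (t0 - b)..(t0 + b), ‖gg f k ℓ t0 M ⟨1 / 2 + x, u⟩‖ :=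
        intervalIntegral.integral_const_mul _ _
    _ ≤ _ := mul_le_mul_of_nonneg_left h1 (by positivity)

/-- the reflection hypothesis -/
def Rf (f : ℂ → ℂ) (t0 b K : ℝ) : Prop := ∀ x u : ℝ, 0 ≤ x → x ≤ b → |u - t0| ≤ b →
  ‖f ⟨1 / 2 - x, u⟩‖ ≤ K * ‖f ⟨1 / 2 + x, u⟩‖

lemma all_seg (hf : Fn f N C) {k M : ℕ} (hM : N * k + 1 ≤ M) {ℓ t0 b x K : ℝ} (hℓ : 2 ≤ ℓ) (hb : 0 < b)
    (hb1 : b ≤ 1 / 8) (hK : 1 ≤ K) (hr : Rf f t0 b K) (hx : |x| ≤ b) :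
    ∫ u in (t0 - b)..(t0 + b), ‖f ⟨1 / 2 + x, u⟩‖ ^ k ≤
      K ^ k * (1 + 2 * b * ℓ) ^ (2 * M) * JJ f k ℓ t0 M := by
  have hJ := JJ_nonneg f k ℓ t0 M
  have hK0 : 1 ≤ K ^ k := one_le_pow₀ hK
  rw [abs_le] at hx
  rcases le_total 0 x with h | h
  · refine (right_seg hf hM hℓ hb h hx.2).trans ?_
    have hnn : 0 ≤ (1 + 2 * b * ℓ) ^ (2 * M) * JJ f k ℓ t0 M := by
      have : 0 ≤ ℓ := by linarith
      positivity
    rw [mul_assoc (K ^ k)]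
    exact le_mul_of_one_le_left hnn hK0
  · have h1 := right_seg hf hM hℓ hb (x := -x) (t0 := t0) (by linarith) (by linarith)
    have hc1 : Continuous fun u : ℝ => f ⟨1 / 2 + x, u⟩ := line_cont hf.diff (by linarith)
    have hc2 : Continuous fun u : ℝ => f ⟨1 / 2 + -x, u⟩ := line_cont hf.diff (by linarith)
    calc ∫ u in (t0 - b)..(t0 + b), ‖f ⟨1 / 2 + x, u⟩‖ ^ k
        ≤ ∫ u in (t0 - b)..(t0 + b), K ^ k * ‖f ⟨1 / 2 + -x, u⟩‖ ^ k := by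
          refine intervalIntegral.integral_mono_on (by linarith)
            ((hc1.norm.pow k).intervalIntegrable _ _) (((hc2.norm.pow k).const_mul _).intervalIntegrable _ _) ?_
          intro u hu
          have h3 : |u - t0| ≤ b := by
            rw [abs_le]
            constructor <;> linarith [hu.1, hu.2]
          have h2 := hr (-x) u (by linarith) (by linarith) h3
          have e : (1:ℝ) / 2 - -x = 1 / 2 + x := by ring
          rw [e] at h2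
          calc ‖f ⟨1 / 2 + x, u⟩‖ ^ k ≤ (K * ‖f ⟨1 / 2 + -x, u⟩‖) ^ k := pow_le_pow_left₀ (norm_nonneg _) h2 _
            _ = _ := mul_pow _ _ _
      _ = K ^ k * ∫ u in (t0 - b)..(t0 + b), ‖f ⟨1 / 2 + -x, u⟩‖ ^ k := intervalIntegral.integral_const_mul _ _
      _ ≤ K ^ k * ((1 + 2 * b * ℓ) ^ (2 * M) * JJ f k ℓ t0 M) := mul_le_mul_of_nonneg_left h1 (by positivity)
      _ = _ := by ring

/-- **The local bound.** -/
theorem core (hf : Fn f N C) {k M : ℕ} (hM : N * k + 1 ≤ M) {ℓ t0 b K : ℝ} (hℓ : 2 ≤ ℓ)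
    (hb : 0 < b) (hb1 : b ≤ 1 / 8) (hK : 1 ≤ K) (hr : Rf f t0 b K) {w : ℂ} (hw : ‖w - ⟨1 / 2, t0⟩‖ ≤ b / 2) :
    ‖f w‖ ^ k ≤ 8 / (Real.pi * b) * (K ^ k * (1 + 2 * b * ℓ) ^ (2 * M) * JJ f k ℓ t0 M) := by
  set V0 : ℝ := K ^ k * (1 + 2 * b * ℓ) ^ (2 * M) * JJ f k ℓ t0 M with hV0
  have hJ := JJ_nonneg f k ℓ t0 M
  have hV00 : 0 ≤ V0 := by positivity
  have hball : Metric.ball w (b / 2) ⊆ Hp (1 / 4) := by
    intro z hz
    rw [mem_ball_iff_norm] at hz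
    have h1 : ‖z - ⟨1 / 2, t0⟩‖ < b := by
      calc ‖z - ⟨1 / 2, t0⟩‖ = ‖(z - w) + (w - ⟨1 / 2, t0⟩)‖ := by ring_nf
        _ ≤ ‖z - w‖ + ‖w - ⟨1 / 2, t0⟩‖ := norm_add_le _ _
        _ < b := by linarith
    have h2 := (Complex.abs_re_le_norm (z - ⟨1 / 2, t0⟩)).trans h1.le
    rw [Complex.sub_re, abs_le] at h2
    show 1 / 2 - 1 / 4 < z.re
    have h3 := h2.1
    simp only at h3
    linarith
  have h1 := Pool.Agent.H402R2.SubMean.rpow_mul_le_lintegral (g := fun z => f z ^ k) (w := w)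
    (ρ := b / 2) (p := 1) (by positivity) one_pos ((hf.diff.pow k).mono hball)
  simp only [Real.rpow_one, ENNReal.rpow_one, norm_pow] at h1
  set e := Complex.measurableEquivRealProd.symm with he
  have hmp : MeasurePreserving e := Complex.volume_preserving_equiv_real_prod.symm
  set I1 : Set ℝ := Icc (1 / 2 - b) (1 / 2 + b) with hI1
  set I2 : Set ℝ := Icc (t0 - b) (t0 + b) with hI2
  have he' : ∀ p : ℝ × ℝ, e p = ⟨p.1, p.2⟩ := fun p => rfl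
  have hsub : Metric.ball w (b / 2) ⊆ e '' (I1 ×ˢ I2) := by
    intro z hz
    rw [mem_ball_iff_norm] at hz
    have h1 : ‖z - ⟨1 / 2, t0⟩‖ ≤ b := by
      calc ‖z - ⟨1 / 2, t0⟩‖ = ‖(z - w) + (w - ⟨1 / 2, t0⟩)‖ := by ring_nf
        _ ≤ ‖z - w‖ + ‖w - ⟨1 / 2, t0⟩‖ := norm_add_le _ _
        _ ≤ b := by linarith
    have h2 := (Complex.abs_re_le_norm (z - ⟨1 / 2, t0⟩)).trans h1
    have h3 := (Complex.abs_im_le_norm (z - ⟨1 / 2, t0⟩)).trans h1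
    rw [Complex.sub_re, abs_le] at h2
    rw [Complex.sub_im, abs_le] at h3
    simp only at h2 h3
    refine ⟨(z.re, z.im), ⟨⟨by linarith, by linarith⟩, ⟨by linarith, by linarith⟩⟩, ?_⟩
    rw [he']
  have h2 : ∫⁻ z in Metric.ball w (b / 2), ‖f z ^ k‖ₑ ≤ ∫⁻ p in I1 ×ˢ I2, ‖f ⟨p.1, p.2⟩ ^ k‖ₑ := by
    refine (lintegral_mono_set hsub).trans (le_of_eq ?_)
    rw [← hmp.setLIntegral_comp_preimage_emb e.measurableEmbedding]
    rw [e.preimage_image]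
    rfl
  have hfc : ContinuousOn (fun p : ℝ × ℝ => f ⟨p.1, p.2⟩ ^ k) (I1 ×ˢ I2) := by
    refine ContinuousOn.pow ?_ k
    have hcc : Continuous fun p : ℝ × ℝ => (⟨p.1, p.2⟩ : ℂ) := by
      have : Continuous fun p : ℝ × ℝ => (p.1 : ℂ) + (p.2 : ℂ) * I := by fun_prop
      exact this.congr fun p => (mk_eq _ _).symm
    refine hf.diff.continuousOn.comp hcc.continuousOn ?_
    rintro ⟨a, c⟩ ⟨ha, hc⟩
    show 1 / 2 - 1 / 4 < a
    have := ha.1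
    linarith
  have hmI : MeasurableSet (I1 ×ˢ I2) := measurableSet_Icc.prod measurableSet_Icc
  have h3 : ∫⁻ p in I1 ×ˢ I2, ‖f ⟨p.1, p.2⟩ ^ k‖ₑ = ∫⁻ x in I1, ∫⁻ u in I2, ‖f ⟨x, u⟩ ^ k‖ₑ := by
    rw [Measure.volume_eq_prod, ← Measure.prod_restrict]
    rw [lintegral_prod]
    rw [Measure.prod_restrict, ← Measure.volume_eq_prod]
    exact (hfc.aemeasurable hmI).enorm
  have h4 : ∀ x ∈ I1, ∫⁻ u in I2, ‖f ⟨x, u⟩ ^ k‖ₑ ≤ ENNReal.ofReal V0 := by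
    intro x hx
    have hc : Continuous fun u : ℝ => f ⟨x, u⟩ := by
      have := line_cont hf.diff (x := x - 1 / 2) (by linarith [hx.1])
      simpa using this
    have e1 : ∫⁻ u in I2, ‖f ⟨x, u⟩ ^ k‖ₑ = ENNReal.ofReal (∫ u in I2, ‖f ⟨x, u⟩‖ ^ k) := by
      rw [ofReal_integral_eq_lintegral_ofReal]
      · refine lintegral_congr fun u => ?_
        rw [← ofReal_norm, norm_pow]
      · exact (hc.norm.pow k).continuousOn.integrableOn_compact isCompact_Icc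
      · exact Eventually.of_forall fun u => by positivity
    rw [e1]
    apply ENNReal.ofReal_le_ofReal
    rw [hI2, integral_Icc_eq_integral_Ioc, ← intervalIntegral.integral_of_le (by linarith)]
    have h5 := all_seg hf hM hℓ hb hb1 hK hr (x := x - 1 / 2) (by
      rw [abs_le]
      constructor <;> linarith [hx.1, hx.2])
    have e2 : 1 / 2 + (x - 1 / 2) = x := by ring
    rw [e2] at h5
    exact h5
  have h5 : ∫⁻ x in I1, ∫⁻ u in I2, ‖f ⟨x, u⟩ ^ k‖ₑ ≤ ENNReal.ofReal (2 * b * V0) := by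
    calc ∫⁻ x in I1, ∫⁻ u in I2, ‖f ⟨x, u⟩ ^ k‖ₑ ≤ ∫⁻ _x in I1, ENNReal.ofReal V0 :=
          setLIntegral_mono' measurableSet_Icc h4
      _ = ENNReal.ofReal V0 * ENNReal.ofReal (2 * b) := by
          rw [setLIntegral_const, hI1, Real.volume_Icc]
          congr 2
          ring
      _ = _ := by rw [← ENNReal.ofReal_mul hV00, mul_comm]
  have h6 : ‖f w‖ ^ k * (Real.pi * (b / 2) ^ 2) ≤ 2 * b * V0 := by
    have := h1.trans (h2.trans (h3.le.trans h5))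
    exact (ENNReal.ofReal_le_ofReal_iff (by positivity)).1 this
  have hpi := Real.pi_pos
  rw [div_mul_eq_mul_div, le_div_iff₀ (by positivity)]
  nlinarith

end Pool.Agent.K4H72.MZ
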