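import Mathlib
import Pool.Agent.K4H72.MZ.Core
import Pool.Agent.K4H72.SC.K

/-!
The local bound with the zeros.
-/

set_option autoImplicit false

open MeasureTheory Filter Topology Set Complex Metric
open scoped ENNReal

namespace Pool.Agent.K4H72.MZ

open Pool.Agent.K4H72.SC

variable {f : ℂ → ℂ} {N : ℕ} {C : ℝ}

theorem with_zeros (hf : Fn f N C) {k M : ℕ} (hk : 1 ≤ k) (hM : N * k + 1 ≤ M) {ℓ t0 b K r0 : ℝ}
    (hℓ : 2 ≤ ℓ) (hb : 0 < b) (hb1 : b ≤ 1 / 8) (hK : 1 ≤ K) (hr : Rf f t0 b K) (hr0 : 0 < r0)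
    (hrb : 6 * r0 < b) (S : Finset ℂ) (hS : ∀ z ∈ S, ‖z - ⟨1 / 2, t0⟩‖ ≤ r0) {w : ℂ}
    (hw : ‖w - ⟨1 / 2, t0⟩‖ ≤ r0) :
    (((b / 2 - r0) / (2 * r0)) ^ (∑ z ∈ S, analyticOrderNatAt f z)) ^ k * ‖f w‖ ^ k ≤
      8 / (Real.pi * b) * (K ^ k * (1 + 2 * b * ℓ) ^ (2 * M) * JJ f k ℓ t0 M) := by
  set c : ℂ := ⟨1 / 2, t0⟩ with hc
  have hsub : closedBall c (b / 2) ⊆ Hp (1 / 4) := by
    intro z hz
    rw [mem_closedBall_iff_norm] at hz
    have h2 := (Complex.abs_re_le_norm (z - c)).trans hz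
    rw [Complex.sub_re, abs_le] at h2
    have h3 := h2.1
    simp only [hc] at h3
    show 1 / 2 - 1 / 4 < z.re
    linarith
  have hcont : ContinuousOn (fun z => ‖f z‖) (closedBall c (b / 2)) := (hf.diff.continuousOn.mono hsub).norm
  obtain ⟨w1, hw1, hmax⟩ := (isCompact_closedBall c (b / 2)).exists_isMaxOn
    ⟨c, mem_closedBall_self (by positivity)⟩ hcont
  have hmax' : ∀ z ∈ closedBall c (b / 2), ‖f z‖ ≤ ‖f w1‖ := fun z hz => hmax hz
  rw [mem_closedBall_iff_norm] at hw1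
  have hcore := core hf hM hℓ hb hb1 hK hr (k := k) hw1
  refine le_trans ?_ hcore
  by_cases h0 : f w = 0
  · rw [h0, norm_zero, zero_pow (by omega), mul_zero]
    positivity
  have hwn : 0 < ‖f w‖ := norm_pos_iff.2 h0
  have hB1 : 0 < ‖f w1‖ := by
    refine hwn.trans_le (hmax' w ?_)
    rw [mem_closedBall_iff_norm]
    linarith
  set B1 : ℝ := ‖f w1‖ with hB1d
  have hB1c : (B1 : ℂ) ≠ 0 := by
    rw [Complex.ofReal_ne_zero]
    exact hB1.ne'
  have hopen := Hp_open (1 / 4)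
  have han : ∀ z ∈ closedBall c (b / 2), AnalyticAt ℂ f z := fun z hz =>
    hf.diff.analyticAt (hopen.mem_nhds (hsub hz))
  have hin : closedBall w (b / 2 - r0) ⊆ closedBall c (b / 2) := by
    intro z hz
    rw [mem_closedBall_iff_norm] at hz ⊢
    calc ‖z - c‖ = ‖(z - w) + (w - c)‖ := by ring_nf
      _ ≤ ‖z - w‖ + ‖w - c‖ := norm_add_le _ _
      _ ≤ b / 2 := by linarith
  set g : ℂ → ℂ := fun z => f z * (fun _ => (B1 : ℂ)⁻¹) z with hg
  have hgn : ∀ z, ‖g z‖ = ‖f z‖ / B1 := by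
    intro z
    simp only [hg]
    rw [norm_mul, norm_inv, Complex.norm_real, Real.norm_of_nonneg hB1.le, div_eq_mul_inv]
  have key := jensen_ord (f := g) (c := w) (r := 2 * r0) (R := b / 2 - r0) (M := 1) (by positivity)
    (by linarith) le_rfl (fun z hz => (han z (hin hz)).mul analyticAt_const) (by
      simp only [hg]
      exact mul_ne_zero h0 (inv_ne_zero hB1c))
    (fun z hz => by
      rw [hgn, div_le_one hB1]
      exact hmax' z (hin hz)) S (fun z hz => by
        rw [mem_closedBall_iff_norm]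
        have := hS z hz
        calc ‖z - w‖ = ‖(z - c) - (w - c)‖ := by ring_nf
          _ ≤ ‖z - c‖ + ‖w - c‖ := norm_sub_le _ _
          _ ≤ 2 * r0 := by linarith)
  have hord : ∀ z ∈ S, analyticOrderNatAt g z = analyticOrderNatAt f z := by
    intro z hz
    unfold analyticOrderNatAt
    rw [hg, order_unit (han z (by
      rw [mem_closedBall_iff_norm]
      have := hS z hz
      linarith)) analyticAt_const (inv_ne_zero hB1c)]
  rw [Finset.sum_congr rfl fun z hz => by rw [hord z hz], hgn] at key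
  set q : ℝ := (b / 2 - r0) / (2 * r0) with hq
  have hq1 : 1 < q := by
    rw [hq, one_lt_div (by positivity)]
    linarith
  have hlq : 0 < Real.log q := Real.log_pos hq1
  rw [le_div_iff₀ hlq] at key
  have h1 : ((∑ z ∈ S, analyticOrderNatAt f z : ℕ) : ℝ) * Real.log q ≤ Real.log (B1 / ‖f w‖) := by
    push_cast
    have e : (1:ℝ) / (‖f w‖ / B1) = B1 / ‖f w‖ := by
      field_simp
    rw [e] at key
    exact key
  have h2 : q ^ (∑ z ∈ S, analyticOrderNatAt f z) ≤ B1 / ‖f w‖ := by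
    rw [← Real.log_pow] at h1
    exact (Real.log_le_log_iff (by positivity) (by positivity)).1 h1
  rw [le_div_iff₀ hwn] at h2
  rw [← mul_pow]
  exact pow_le_pow_left₀ (by positivity) h2 _

end Pool.Agent.K4H72.MZ
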