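import Mathlib
import Pool.Agent.K4H72.MZ.Zr
import Pool.Agent.TH535.SM.A3
import Pool.Agent.H855R2.SF.Gam

/-!
The local bound for the Riemann zeta function.
-/

set_option autoImplicit false

open MeasureTheory Filter Topology Set Complex Metric
open scoped ENNReal ComplexConjugate

namespace Pool.Agent.K4H72.MZ

open Pool.Agent.K4H72.SC Pool.Agent.TH535.SM

/-- the entire multiple of zeta -/
noncomputable def FZ : ℂ → ℂ := Pool.Agent.TH535.SM.H 1 1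

lemma FZ_eq {s : ℂ} (h : s ≠ 1) : FZ s = riemannZeta s * ((s - 1) / (s + 3)) := by
  unfold FZ Pool.Agent.TH535.SM.H
  rw [Y_eq h, pow_one]
  push_cast
  ring

lemma fn_zeta : ∃ (C : ℝ) (N : ℕ), 0 ≤ C ∧ Fn FZ N C := by
  obtain ⟨C1, N, hC1, h1⟩ := H_strip 1 (u := 1) le_rfl
  obtain ⟨Z, hZ, h2⟩ := zeta_right
  refine ⟨max C1 Z, N, le_max_of_le_left (by linarith), ⟨fun s hs => ?_, fun s hs => ?_⟩⟩
  · refine (H_diff 1 (u := 1) ?_).differentiableWithinAt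
    have : 1 / 2 - 1 / 4 < s.re := hs
    push_cast
    linarith
  · have hp : (1:ℝ) ≤ (1 + |s.im|) ^ N := one_le_pow₀ (by linarith [abs_nonneg s.im])
    rcases le_total s.re (3 / 2) with h | h
    · refine (h1 s (by push_cast; linarith) (by push_cast; linarith)).trans ?_
      exact mul_le_mul_of_nonneg_right (le_max_left _ _) (by positivity)
    · have hs1 : s ≠ 1 := by
        intro h0
        rw [h0, Complex.one_re] at h
        norm_num at h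
      have h3 := H_le (k := 1) (u := 1) (s := s) (by push_cast; linarith) hs1
      rw [pow_one] at h3
      calc ‖FZ s‖ ≤ ‖riemannZeta s‖ := h3
        _ ≤ Z := h2 s h
        _ ≤ max C1 Z * 1 := by rw [mul_one]; exact le_max_right _ _
        _ ≤ _ := mul_le_mul_of_nonneg_left hp (by positivity)

lemma norm_GR_conj (z : ℂ) : ‖Gammaℝ (conj z)‖ = ‖Gammaℝ z‖ := by
  rw [Gammaℝ_def, Gammaℝ_def, norm_mul, norm_mul, Complex.norm_cpow_eq_rpow_re_of_pos Real.pi_pos,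
    Complex.norm_cpow_eq_rpow_re_of_pos Real.pi_pos]
  have e1 : (-(conj z) / 2).re = (-z / 2).re := by simp
  have e2 : conj z / 2 = conj (z / 2) := by rw [map_div₀, map_ofNat]
  rw [e1, e2, Complex.Gamma_conj, Complex.norm_conj]

lemma zeta_norm_conj (s : ℂ) : ‖riemannZeta (conj s)‖ = ‖riemannZeta s‖ := by
  rw [riemannZeta_conj, Complex.norm_conj]

/-- the functional equation near the critical line -/
lemma zeta_refl {x u : ℝ} (hx0 : 0 ≤ x) (hx : x ≤ 1 / 8) :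
    ‖riemannZeta ⟨1 / 2 - x, u⟩‖ ≤ 8 * (1 + ‖(⟨1 / 2 - x, u⟩ : ℂ)‖) ^ x * ‖riemannZeta ⟨1 / 2 + x, u⟩‖ := by
  set s : ℂ := ⟨1 / 2 - x, u⟩ with hs
  have hsre : s.re = 1 / 2 - x := rfl
  have hs0 : s ≠ 0 := by
    intro h
    have := congrArg Complex.re h
    rw [hsre, Complex.zero_re] at this
    linarith
  have h1s : 1 - s = conj (⟨1 / 2 + x, u⟩ : ℂ) := by
    apply Complex.ext
    · simp [hs]; ring
    · simp [hs]
  have h1s0 : 1 - s ≠ 0 := by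
    intro h
    have := congrArg Complex.re h
    rw [h1s, Complex.conj_re, Complex.zero_re] at this
    simp only at this
    linarith
  have h2s : s + 2 * (x : ℂ) = ⟨1 / 2 + x, u⟩ := by
    apply Complex.ext
    · simp [hs]; ring
    · simp [hs]
  have hG : Gammaℝ (1 - s) ≠ 0 := by
    apply Gammaℝ_ne_zero_of_re_pos
    rw [Complex.sub_re, Complex.one_re, hsre]
    linarith
  have e1 : riemannZeta s = riemannZeta (1 - s) * Gammaℝ (1 - s) * (Gammaℝ s)⁻¹ := by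
    rw [riemannZeta_def_of_ne_zero hs0, riemannZeta_def_of_ne_zero h1s0, completedRiemannZeta_one_sub]
    field_simp
  have hq := H855R2.SF.gammaR_quot (w := s) (x := x) hx0 (by linarith) (by rw [hsre]; linarith)
  have e2 : ‖Gammaℝ (1 - s)‖ = ‖Gammaℝ (s + 2 * x)‖ := by
    rw [h1s, norm_GR_conj, h2s]
  have e3 : ‖riemannZeta (1 - s)‖ = ‖riemannZeta ⟨1 / 2 + x, u⟩‖ := by
    rw [h1s, zeta_norm_conj]
  rw [e1, norm_mul, norm_mul, e2, e3, mul_assoc, mul_comm]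
  exact mul_le_mul_of_nonneg_right hq (norm_nonneg _)

lemma near_facts {t0 : ℝ} {z : ℂ} (h : ‖z - ⟨1 / 2, t0⟩‖ ≤ 1 / 8) : z ≠ 1 ∧ 3 / 8 ≤ ‖z - 1‖ ∧ z + 3 ≠ 0 ∧
    1 ≤ ‖z + 3‖ := by
  have h1 := (Complex.abs_re_le_norm (z - ⟨1 / 2, t0⟩)).trans h
  rw [Complex.sub_re, abs_le] at h1
  simp only at h1
  have h2 : 3 / 8 ≤ ‖z - 1‖ := by
    have := Complex.abs_re_le_norm (z - 1)
    rw [Complex.sub_re, Complex.one_re] at this
    have h3 := neg_le_abs (z.re - 1)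
    linarith
  have h3 : 1 ≤ ‖z + 3‖ := by
    have := Complex.abs_re_le_norm (z + 3)
    rw [Complex.add_re] at this
    have h3 := le_abs_self (z.re + (3:ℂ).re)
    have h4 : (3:ℂ).re = 3 := by simp
    rw [h4] at this h3
    linarith
  refine ⟨?_, h2, ?_, h3⟩
  · rintro rfl
    simp at h2
    norm_num at h2
  · intro h0
    rw [h0, norm_zero] at h3
    linarith

lemma FZ_norm {z : ℂ} (h : z ≠ 1) : ‖FZ z‖ = ‖riemannZeta z‖ * (‖z - 1‖ / ‖z + 3‖) := by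
  rw [FZ_eq h, norm_mul, norm_div]

lemma zeta_le_FZ {t0 : ℝ} {z : ℂ} (h : ‖z - ⟨1 / 2, t0⟩‖ ≤ 1 / 8) : ‖riemannZeta z‖ ≤ 12 * ‖FZ z‖ := by
  obtain ⟨h1, h2, h3, h4⟩ := near_facts h
  rw [FZ_norm h1]
  have h5 : ‖z + 3‖ ≤ 12 * ‖z - 1‖ := by
    have e : z + 3 = (z - 1) + 4 := by ring
    have : ‖z + 3‖ ≤ ‖z - 1‖ + ‖(4:ℂ)‖ := by
      rw [e]
      exact norm_add_le _ _
    have h6 : ‖(4:ℂ)‖ = 4 := by simp
    rw [h6] at this
    linarith
  have h7 : 1 ≤ 12 * (‖z - 1‖ / ‖z + 3‖) := by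
    rw [mul_div_assoc', le_div_iff₀ (by linarith), one_mul]
    exact h5
  nlinarith [norm_nonneg (riemannZeta z)]

lemma FZ_le {u : ℝ} : ‖FZ ⟨1 / 2, u⟩‖ ≤ ‖riemannZeta ⟨1 / 2, u⟩‖ := by
  have h := H_line (k := 1) (u := 1) u
  have e : (1 / 2 + u * I : ℂ) = ⟨1 / 2, u⟩ := by
    apply Complex.ext <;> simp
  rw [e, pow_one] at h
  exact h

lemma rf_zeta {t0 b ℓ R : ℝ} (hℓ : 2 ≤ ℓ) (hb : b = R / ℓ) (hb1 : b ≤ 1 / 8)
    (ht : |t0| + 4 ≤ Real.exp (ℓ + 2)) : Rf FZ t0 b (32 * Real.exp (2 * R)) := by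
  intro x u hx0 hx hu
  have hx8 : x ≤ 1 / 8 := hx.trans hb1
  set s : ℂ := ⟨1 / 2 - x, u⟩ with hs
  set s' : ℂ := ⟨1 / 2 + x, u⟩ with hs'
  have hn : ‖s - ⟨1 / 2, u⟩‖ ≤ 1 / 8 := by
    have e : s - ⟨1 / 2, u⟩ = ((-x : ℝ) : ℂ) := by
      apply Complex.ext <;> simp [hs]
    rw [e, Complex.norm_real, Real.norm_eq_abs, abs_neg, abs_of_nonneg hx0]
    exact hx8
  have hn' : ‖s' - ⟨1 / 2, u⟩‖ ≤ 1 / 8 := by
    have e : s' - ⟨1 / 2, u⟩ = ((x : ℝ) : ℂ) := by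
      apply Complex.ext <;> simp [hs']
    rw [e, Complex.norm_real, Real.norm_eq_abs, abs_of_nonneg hx0]
    exact hx8
  obtain ⟨h1, h2, h3, h4⟩ := near_facts hn
  obtain ⟨h1', h2', h3', h4'⟩ := near_facts hn'
  have hd : s' - s = ((2 * x : ℝ) : ℂ) := by
    apply Complex.ext
    · simp [hs, hs']; ring
    · simp [hs, hs']
  have hdn : ‖s' - s‖ ≤ 1 / 4 := by
    rw [hd, Complex.norm_real, Real.norm_eq_abs, abs_of_nonneg (by linarith)]
    linarith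
  have h5 : ‖s - 1‖ ≤ 2 * ‖s' - 1‖ := by
    calc ‖s - 1‖ = ‖(s' - 1) - (s' - s)‖ := by ring_nf
      _ ≤ ‖s' - 1‖ + ‖s' - s‖ := norm_sub_le _ _
      _ ≤ _ := by linarith
  have h6 : ‖s' + 3‖ ≤ 2 * ‖s + 3‖ := by
    calc ‖s' + 3‖ = ‖(s + 3) + (s' - s)‖ := by ring_nf
      _ ≤ ‖s + 3‖ + ‖s' - s‖ := norm_add_le _ _
      _ ≤ _ := by linarith
  have h7 := zeta_refl (u := u) hx0 hx8
  have h8 : (1 + ‖s‖) ^ x ≤ Real.exp (2 * R) := by
    have h9 : 1 + ‖s‖ ≤ Real.exp (ℓ + 2) := by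
      have : ‖s‖ ≤ |1 / 2 - x| + |u| := Complex.norm_le_abs_re_add_abs_im s
      have h10 : |1 / 2 - x| ≤ 1 := by
        rw [abs_le]; constructor <;> linarith
      have h11 : |u| ≤ |t0| + 1 / 8 := by
        have := abs_add_le t0 (u - t0)
        have e : t0 + (u - t0) = u := by ring
        rw [e] at this
        linarith
      linarith
    have h12 : x * (ℓ + 2) ≤ 2 * R := by
      have hbl : b * ℓ = R := by rw [hb]; field_simp
      have : x * (ℓ + 2) ≤ b * (ℓ + 2) := mul_le_mul_of_nonneg_right hx (by linarith)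
      have hb0 : 0 ≤ b := hx0.trans hx
      nlinarith
    calc (1 + ‖s‖) ^ x ≤ (Real.exp (ℓ + 2)) ^ x := Real.rpow_le_rpow (by positivity) h9 hx0
      _ = Real.exp (x * (ℓ + 2)) := by rw [← Real.exp_mul]; ring_nf
      _ ≤ _ := Real.exp_le_exp.2 h12
  rw [FZ_norm h1, FZ_norm h1']
  have h13 : ‖s - 1‖ / ‖s + 3‖ ≤ 4 * (‖s' - 1‖ / ‖s' + 3‖) := by
    rw [mul_div_assoc', div_le_div_iff₀ (by linarith) (by linarith)]
    nlinarith [norm_nonneg (s - 1), norm_nonneg (s + 3), norm_nonneg (s' - 1)]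
  calc ‖riemannZeta s‖ * (‖s - 1‖ / ‖s + 3‖)
      ≤ (8 * (1 + ‖s‖) ^ x * ‖riemannZeta s'‖) * (4 * (‖s' - 1‖ / ‖s' + 3‖)) :=
        mul_le_mul h7 h13 (by positivity) (by positivity)
    _ ≤ (8 * Real.exp (2 * R) * ‖riemannZeta s'‖) * (4 * (‖s' - 1‖ / ‖s' + 3‖)) := by gcongr
    _ = _ := by ring

lemma ord_FZ {t0 : ℝ} {z : ℂ} (h : ‖z - ⟨1 / 2, t0⟩‖ ≤ 1 / 8) :
    analyticOrderNatAt FZ z = analyticOrderNatAt riemannZeta z := by
  obtain ⟨h1, h2, h3, h4⟩ := near_facts h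
  have hz : AnalyticAt ℂ riemannZeta z := by
    have : DifferentiableOn ℂ riemannZeta {1}ᶜ := fun w hw =>
      (differentiableAt_riemannZeta hw).differentiableWithinAt
    exact this.analyticAt (isOpen_compl_singleton.mem_nhds h1)
  have he : AnalyticAt ℂ (fun w : ℂ => (w - 1) / (w + 3)) z := by
    refine AnalyticAt.div (by fun_prop) (by fun_prop) h3
  have hne : (fun w : ℂ => (w - 1) / (w + 3)) z ≠ 0 := div_ne_zero (sub_ne_zero.2 h1) h3
  have hev : FZ =ᶠ[𝓝 z] fun w => riemannZeta w * (fun w : ℂ => (w - 1) / (w + 3)) w := by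
    filter_upwards [isOpen_compl_singleton.mem_nhds h1] with w hw
    exact FZ_eq hw
  unfold analyticOrderNatAt
  rw [analyticOrderAt_congr hev, order_unit hz he hne]

lemma zline_cont : Continuous fun u : ℝ => riemannZeta ⟨1 / 2, u⟩ := by
  have hc : Continuous fun u : ℝ => (⟨1 / 2, u⟩ : ℂ) := by
    have : Continuous (fun u : ℝ => ((1 / 2 : ℝ) : ℂ) + (u : ℂ) * I) := by fun_prop
    exact this.congr (fun u => (mk_eq _ _).symm)
  have : ContinuousOn riemannZeta {1}ᶜ := fun w hw => (differentiableAt_riemannZeta hw).continuousAt.continuousWithinAt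
  refine this.comp_continuous hc fun u => ?_
  intro h
  have := congrArg Complex.re h
  norm_num at this

lemma zeta_grow {C : ℝ} {N : ℕ} (hf : Fn FZ N C) (u : ℝ) :
    ‖riemannZeta ⟨1 / 2, u⟩‖ ≤ 12 * (C * (1 + |u|) ^ N) := by
  have h1 := zeta_le_FZ (t0 := u) (z := ⟨1 / 2, u⟩) (by rw [sub_self, norm_zero]; norm_num)
  have h2 := hf.grow ⟨1 / 2, u⟩ le_rfl
  linarith

lemma zeta_int {C : ℝ} {N : ℕ} (hf : Fn FZ N C) {k M : ℕ} (hM : N * k + 1 ≤ M) {ℓ t0 : ℝ} (hℓ : 2 ≤ ℓ) :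
    Integrable fun u : ℝ => ‖riemannZeta ⟨1 / 2, u⟩‖ ^ k / (1 + ((u - t0) * ℓ) ^ 2) ^ M := by
  have h1 := (JJ_int hf hM (t0 := t0) hℓ).const_mul ((12:ℝ) ^ k)
  refine Integrable.mono' h1 ?_ (Eventually.of_forall fun u => ?_)
  · refine Continuous.aestronglyMeasurable ?_
    refine (zline_cont.norm.pow k).div (by fun_prop) fun u => ?_
    positivity
  · rw [gg_norm0, Real.norm_of_nonneg (by positivity)]
    have h2 := zeta_le_FZ (t0 := u) (z := ⟨1 / 2, u⟩) (by rw [sub_self, norm_zero]; norm_num)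
    rw [mul_div_assoc']
    refine div_le_div_of_nonneg_right ?_ (by positivity)
    rw [← mul_pow]
    exact pow_le_pow_left₀ (norm_nonneg _) h2 _

lemma JJ_zeta_le {C : ℝ} {N : ℕ} (hf : Fn FZ N C) {k M : ℕ} (hM : N * k + 1 ≤ M) {ℓ t0 : ℝ} (hℓ : 2 ≤ ℓ) :
    JJ FZ k ℓ t0 M ≤ JJ riemannZeta k ℓ t0 M := by
  unfold JJ
  refine integral_mono_of_nonneg (Eventually.of_forall fun u => by positivity) (zeta_int hf hM hℓ)
    (Eventually.of_forall fun u => ?_)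
  exact div_le_div_of_nonneg_right (pow_le_pow_left₀ (norm_nonneg _) FZ_le _) (by positivity)

/-- **The pointwise bound for zeta.** -/
theorem zeta_pt {C : ℝ} {N : ℕ} (hf : Fn FZ N C) {k M : ℕ} (hk : 1 ≤ k) (hM : N * k + 1 ≤ M) {A B : ℝ}
    (hA : 0 < A) : ∃ C' ℓ0 : ℝ, 0 ≤ C' ∧ 2 ≤ ℓ0 ∧ ∀ ℓ t0 : ℝ, ℓ0 ≤ ℓ →
      |t0| + 4 ≤ Real.exp (ℓ + 2) → ∀ S : Finset ℂ, (∀ z ∈ S, ‖z - ⟨1 / 2, t0⟩‖ ≤ A / ℓ) →
      ∀ w : ℂ, ‖w - ⟨1 / 2, t0⟩‖ ≤ A / ℓ →
        Real.exp (B * ((∑ z ∈ S, analyticOrderNatAt riemannZeta z : ℕ) : ℝ)) * ‖riemannZeta w‖ ^ k ≤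
          C' * (ℓ * JJ riemannZeta k ℓ t0 M) := by
  set R : ℝ := 6 * A + 4 * A * Real.exp B with hR
  have hR0 : 0 < R := by positivity
  set K : ℝ := 32 * Real.exp (2 * R) with hK
  have hK1 : 1 ≤ K := by
    rw [hK]
    have := Real.one_le_exp (x := 2 * R) (by linarith)
    linarith
  have hpi := Real.pi_pos
  refine ⟨12 ^ k * (8 / (Real.pi * R) * (K ^ k * (1 + 2 * R) ^ (2 * M))), max 2 (8 * R), by positivity,
    le_max_left _ _, fun ℓ t0 hℓ ht S hS w hw => ?_⟩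
  have hℓ2 : 2 ≤ ℓ := (le_max_left _ _).trans hℓ
  have hℓ0 : 0 < ℓ := by linarith
  have hb : 0 < R / ℓ := by positivity
  have hb1 : R / ℓ ≤ 1 / 8 := by
    rw [div_le_iff₀ hℓ0]
    have := (le_max_right _ _).trans hℓ
    linarith
  have hAR : 6 * (A / ℓ) < R / ℓ := by
    rw [mul_div_assoc', div_lt_div_iff_of_pos_right hℓ0, hR]
    have : 0 < A * Real.exp B := by positivity
    nlinarith
  have hA8 : A / ℓ ≤ 1 / 8 := by
    have : 0 < A / ℓ := by positivity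
    linarith
  have h1 := with_zeros hf (k := k) (M := M) hk hM (ℓ := ℓ) (t0 := t0) (b := R / ℓ) (K := K) (r0 := A / ℓ) hℓ2 hb
    hb1 hK1 (rf_zeta hℓ2 rfl hb1 ht) (by positivity) hAR S hS hw
  have hq : (R / ℓ / 2 - A / ℓ) / (2 * (A / ℓ)) = 1 + Real.exp B := by
    rw [hR]
    field_simp
    ring
  rw [hq, Finset.sum_congr rfl fun z hz => ord_FZ ((hS z hz).trans hA8)] at h1
  set n : ℕ := ∑ z ∈ S, analyticOrderNatAt riemannZeta z with hn
  have h2 : Real.exp (B * (n : ℝ)) ≤ ((1 + Real.exp B) ^ n) ^ k := by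
    have h3 : Real.exp (B * (n : ℝ)) = (Real.exp B) ^ n := by
      rw [← Real.exp_nat_mul]
      ring_nf
    rw [h3]
    have hE : 1 ≤ (1 + Real.exp B) ^ n := one_le_pow₀ (by linarith [Real.exp_pos B])
    calc Real.exp B ^ n ≤ (1 + Real.exp B) ^ n := pow_le_pow_left₀ (Real.exp_pos B).le (by linarith) _
      _ = ((1 + Real.exp B) ^ n) ^ 1 := (pow_one _).symm
      _ ≤ ((1 + Real.exp B) ^ n) ^ k := pow_le_pow_right₀ hE hk
  have h4 : ‖riemannZeta w‖ ^ k ≤ 12 ^ k * ‖FZ w‖ ^ k := by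
    rw [← mul_pow]
    exact pow_le_pow_left₀ (norm_nonneg _) (zeta_le_FZ (hw.trans hA8)) _
  have e1 : 1 + 2 * (R / ℓ) * ℓ = 1 + 2 * R := by
    field_simp
  have e2 : 8 / (Real.pi * (R / ℓ)) = 8 / (Real.pi * R) * ℓ := by
    field_simp
  rw [e1, e2] at h1
  have hJ := JJ_zeta_le hf hM (t0 := t0) (k := k) hℓ2
  calc Real.exp (B * (n : ℝ)) * ‖riemannZeta w‖ ^ k
      ≤ ((1 + Real.exp B) ^ n) ^ k * (12 ^ k * ‖FZ w‖ ^ k) :=
        mul_le_mul h2 h4 (by positivity) (by positivity)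
    _ = 12 ^ k * (((1 + Real.exp B) ^ n) ^ k * ‖FZ w‖ ^ k) := by ring
    _ ≤ 12 ^ k * (8 / (Real.pi * R) * ℓ * (K ^ k * (1 + 2 * R) ^ (2 * M) * JJ FZ k ℓ t0 M)) :=
        mul_le_mul_of_nonneg_left h1 (by positivity)
    _ ≤ 12 ^ k * (8 / (Real.pi * R) * ℓ * (K ^ k * (1 + 2 * R) ^ (2 * M) * JJ riemannZeta k ℓ t0 M)) := by
        gcongr
    _ = _ := by ring

end Pool.Agent.K4H72.MZ
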