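import Mathlib
import Pool.Agent.K4H72.MZ.Zeta

/-!
The mean of the local integrals.
-/

set_option autoImplicit false

open MeasureTheory Filter Topology Set Complex
open scoped ENNReal

namespace Pool.Agent.K4H72.MZ

lemma kint {ℓ : ℝ} (hℓ : 0 < ℓ) (u : ℝ) : Integrable (fun t : ℝ => (1 + ((u - t) * ℓ) ^ 2)⁻¹) ∧
    ∫ t : ℝ, (1 + ((u - t) * ℓ) ^ 2)⁻¹ = Real.pi / ℓ := by
  have h1 : Integrable (fun y : ℝ => (1 + (y * ℓ) ^ 2)⁻¹) :=
    integrable_inv_one_add_sq.comp_mul_right' hℓ.ne'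
  refine ⟨h1.comp_sub_left u, ?_⟩
  rw [integral_sub_left_eq_self (fun y : ℝ => (1 + (y * ℓ) ^ 2)⁻¹) volume u,
    Measure.integral_comp_mul_right (fun y : ℝ => (1 + y ^ 2)⁻¹) ℓ, integral_univ_inv_one_add_sq,
    abs_of_pos (inv_pos.2 hℓ), smul_eq_mul]
  ring

/-- distance to the interval `[0, T]` -/
noncomputable def dd (T u : ℝ) : ℝ := max 0 (max (-u) (u - T))

lemma dd_nonneg (T u : ℝ) : 0 ≤ dd T u := le_max_left _ _

lemma dd_le {T u t : ℝ} (ht : t ∈ Icc 0 T) : dd T u ≤ |u - t| := by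
  unfold dd
  refine max_le (abs_nonneg _) (max_le ?_ ?_)
  · have := neg_abs_le (u - t)
    linarith [ht.1]
  · have := le_abs_self (u - t)
    linarith [ht.2]

lemma inner_bd {ℓ T u a : ℝ} (hℓ : 1 ≤ ℓ) (ha : 0 ≤ a) (M : ℕ) :
    ∫⁻ t in Icc 0 T, ENNReal.ofReal (ℓ * (a / (1 + ((u - t) * ℓ) ^ 2) ^ (M + 1))) ≤
      ENNReal.ofReal (Real.pi * a / (1 + dd T u ^ 2) ^ M) := by
  have hℓ0 : 0 < ℓ := by linarith
  obtain ⟨h1, h2⟩ := kint hℓ0 u
  have hd := dd_nonneg T u
  calc ∫⁻ t in Icc 0 T, ENNReal.ofReal (ℓ * (a / (1 + ((u - t) * ℓ) ^ 2) ^ (M + 1)))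
      ≤ ∫⁻ t in Icc 0 T, ENNReal.ofReal (ℓ * a / (1 + dd T u ^ 2) ^ M * (1 + ((u - t) * ℓ) ^ 2)⁻¹) := by
        refine setLIntegral_mono' measurableSet_Icc fun t ht => ENNReal.ofReal_le_ofReal ?_
        have h3 : dd T u ^ 2 ≤ ((u - t) * ℓ) ^ 2 := by
          rw [← sq_abs ((u - t) * ℓ), abs_mul, abs_of_pos hℓ0]
          refine pow_le_pow_left₀ hd ((dd_le ht).trans ?_) _
          exact le_mul_of_one_le_right (abs_nonneg _) hℓ
        have h4 : (1 + dd T u ^ 2) ^ M ≤ (1 + ((u - t) * ℓ) ^ 2) ^ M :=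
          pow_le_pow_left₀ (by positivity) (by linarith) _
        set X : ℝ := 1 + ((u - t) * ℓ) ^ 2 with hX
        have hX0 : 0 < X := by positivity
        have hd0 : 0 < (1 + dd T u ^ 2) ^ M := by positivity
        have h5 : (1 + dd T u ^ 2) ^ M * X ≤ X ^ M * X := mul_le_mul_of_nonneg_right h4 hX0.le
        calc ℓ * (a / X ^ (M + 1)) = ℓ * a / (X ^ M * X) := by
              rw [pow_succ X M, mul_div_assoc]
          _ ≤ ℓ * a / ((1 + dd T u ^ 2) ^ M * X) :=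
              div_le_div_of_nonneg_left (by positivity) (by positivity) h5
          _ = _ := by
              rw [← div_div, div_eq_mul_inv _ X]
    _ ≤ ∫⁻ t, ENNReal.ofReal (ℓ * a / (1 + dd T u ^ 2) ^ M * (1 + ((u - t) * ℓ) ^ 2)⁻¹) :=
        setLIntegral_le_lintegral _ _
    _ = ENNReal.ofReal (∫ t, ℓ * a / (1 + dd T u ^ 2) ^ M * (1 + ((u - t) * ℓ) ^ 2)⁻¹) := by
        rw [ofReal_integral_eq_lintegral_ofReal (h1.const_mul _)]
        exact Eventually.of_forall fun t => by positivity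
    _ = _ := by
        rw [integral_const_mul, h2]
        congr 1
        field_simp

lemma tail {C : ℝ} {N : ℕ} (hf : Fn FZ N C) (hC : 0 ≤ C) (k E : ℕ) {u y : ℝ} (hy : 0 ≤ y)
    (h : 1 + |u| ≤ 3 * (1 + y) ^ (E + 1)) :
    Real.pi * ‖riemannZeta ⟨1 / 2, u⟩‖ ^ k / (1 + y ^ 2) ^ ((E + 1) * (N * k) + 1) ≤
      Real.pi * ((12 * C) ^ k * 3 ^ (N * k) * 2 ^ ((E + 1) * (N * k))) * (1 + y ^ 2)⁻¹ := by
  have hpi := Real.pi_pos
  have h1 : ‖riemannZeta ⟨1 / 2, u⟩‖ ^ k ≤
      (12 * C) ^ k * 3 ^ (N * k) * 2 ^ ((E + 1) * (N * k)) * (1 + y ^ 2) ^ ((E + 1) * (N * k)) := by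
    calc ‖riemannZeta ⟨1 / 2, u⟩‖ ^ k ≤ (12 * (C * (1 + |u|) ^ N)) ^ k :=
          pow_le_pow_left₀ (norm_nonneg _) (zeta_grow hf u) _
      _ = (12 * C) ^ k * (1 + |u|) ^ (N * k) := by
          rw [← mul_assoc, mul_pow, ← pow_mul]
      _ ≤ (12 * C) ^ k * (3 * (1 + y) ^ (E + 1)) ^ (N * k) := by
          refine mul_le_mul_of_nonneg_left ?_ (by positivity)
          exact pow_le_pow_left₀ (by positivity) h _
      _ = (12 * C) ^ k * 3 ^ (N * k) * (1 + y) ^ ((E + 1) * (N * k)) := by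
          rw [mul_pow (3:ℝ) ((1 + y) ^ (E + 1)) (N * k), ← pow_mul]
          ring
      _ ≤ (12 * C) ^ k * 3 ^ (N * k) * (2 * (1 + y ^ 2)) ^ ((E + 1) * (N * k)) := by
          refine mul_le_mul_of_nonneg_left ?_ (by positivity)
          refine pow_le_pow_left₀ (by positivity) ?_ _
          nlinarith [sq_nonneg (y - 1)]
      _ = _ := by
          rw [mul_pow (2:ℝ) (1 + y ^ 2) ((E + 1) * (N * k))]
          ring
  have hp : 0 < (1 + y ^ 2) ^ ((E + 1) * (N * k)) := by positivity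
  calc Real.pi * ‖riemannZeta ⟨1 / 2, u⟩‖ ^ k / (1 + y ^ 2) ^ ((E + 1) * (N * k) + 1)
      ≤ Real.pi * ((12 * C) ^ k * 3 ^ (N * k) * 2 ^ ((E + 1) * (N * k)) * (1 + y ^ 2) ^ ((E + 1) * (N * k))) /
          (1 + y ^ 2) ^ ((E + 1) * (N * k) + 1) := by gcongr
    _ = _ := by
        rw [pow_succ (1 + y ^ 2) ((E + 1) * (N * k))]
        have h2 : 0 < 1 + y ^ 2 := by positivity
        field_simp

theorem mean_P {C : ℝ} {N : ℕ} (hf : Fn FZ N C) (hC : 0 ≤ C) (k E : ℕ) {ε : ℝ} (hε : 0 < ε)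
    (hE : 1 / ε ≤ E) : ∃ C2 : ℝ, 0 ≤ C2 ∧ ∀ T : ℝ, Real.exp 2 ≤ T →
      ∫⁻ t in Icc 0 (T + 1), ENNReal.ofReal (Real.log T *
        JJ riemannZeta k (Real.log T) t ((E + 1) * (N * k) + 2)) ≤
      ENNReal.ofReal (C2 * ((∫ u in (0:ℝ)..(T + T ^ ε), ‖riemannZeta ⟨1 / 2, u⟩‖ ^ k) + 1)) := by
  have hpi := Real.pi_pos
  set C3 : ℝ := Real.pi * ((12 * C) ^ k * 3 ^ (N * k) * 2 ^ ((E + 1) * (N * k))) with hC3
  have hC30 : 0 ≤ C3 := by positivity
  refine ⟨Real.pi + 2 * Real.pi * C3, by positivity, fun T hT => ?_⟩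
  have hT0 : 0 < T := (Real.exp_pos 2).trans_le hT
  have hT1 : 1 ≤ T := (Real.one_le_exp (by norm_num)).trans hT
  set ℓ : ℝ := Real.log T with hℓ
  have hℓ2 : 2 ≤ ℓ := by
    rw [hℓ, Real.le_log_iff_exp_le hT0]
    exact hT
  set M : ℕ := (E + 1) * (N * k) + 1 with hM
  have hM1 : N * k + 1 ≤ M + 1 := by
    rw [hM]
    nlinarith [Nat.zero_le (E * (N * k))]
  set T1 : ℝ := T + 1 with hT1'
  set T2 : ℝ := T + T ^ ε with hT2
  have hTε : 1 ≤ T ^ ε := Real.one_le_rpow hT1 hε.le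
  have hT20 : 0 ≤ T2 := by linarith
  set a : ℝ → ℝ := fun u => ‖riemannZeta ⟨1 / 2, u⟩‖ ^ k with ha
  have ha0 : ∀ u, 0 ≤ a u := fun u => by positivity
  have hac : Continuous a := zline_cont.norm.pow k
  -- Tonelli
  have h1 : ∀ t, ENNReal.ofReal (ℓ * JJ riemannZeta k ℓ t (M + 1)) =
      ∫⁻ u, ENNReal.ofReal (ℓ * (a u / (1 + ((u - t) * ℓ) ^ 2) ^ (M + 1))) := by
    intro t
    unfold JJ
    rw [← integral_const_mul, ofReal_integral_eq_lintegral_ofReal]
    · exact (zeta_int hf hM1 hℓ2).const_mul _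
    · exact Eventually.of_forall fun u => by positivity
  have hmeas : Measurable (Function.uncurry fun t u : ℝ =>
      ENNReal.ofReal (ℓ * (a u / (1 + ((u - t) * ℓ) ^ 2) ^ (M + 1)))) := by
    apply Measurable.ennreal_ofReal
    apply Continuous.measurable
    refine continuous_const.mul ((hac.comp continuous_snd).div (by fun_prop) fun p => ?_)
    positivity
  have h2 : ∫⁻ t in Icc 0 T1, ENNReal.ofReal (ℓ * JJ riemannZeta k ℓ t (M + 1)) =
      ∫⁻ u, ∫⁻ t in Icc 0 T1, ENNReal.ofReal (ℓ * (a u / (1 + ((u - t) * ℓ) ^ 2) ^ (M + 1))) := by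
    rw [lintegral_congr h1]
    exact lintegral_lintegral_swap hmeas.aemeasurable
  have h3 : ∀ u, Real.pi * a u / (1 + dd T1 u ^ 2) ^ M ≤
      (Icc 0 T2).indicator (fun u => Real.pi * a u) u + C3 * (1 + u ^ 2)⁻¹ + C3 * (1 + (u - T1) ^ 2)⁻¹ := by
    intro u
    have hd := dd_nonneg T1 u
    have hp1 : 0 ≤ C3 * (1 + u ^ 2)⁻¹ := by positivity
    have hp2 : 0 ≤ C3 * (1 + (u - T1) ^ 2)⁻¹ := by positivity
    by_cases hu : u ∈ Icc 0 T2
    · rw [indicator_of_mem hu]
      have : Real.pi * a u / (1 + dd T1 u ^ 2) ^ M ≤ Real.pi * a u := by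
        apply div_le_self (by have := ha0 u; positivity)
        exact one_le_pow₀ (by nlinarith)
      linarith
    · rw [indicator_of_notMem hu, zero_add]
      rw [mem_Icc, not_and_or] at hu
      push Not at hu
      rcases hu with hu | hu
      · have e : dd T1 u = -u := by
          unfold dd
          rw [max_eq_left (a := -u) (by linarith), max_eq_right (by linarith)]
        have := tail hf hC k E (u := u) (y := -u) (by linarith) (by
          rw [abs_of_neg hu]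
          have : 1 + -u ≤ (1 + -u) ^ (E + 1) := le_self_pow₀ (by linarith) (by omega)
          nlinarith)
        rw [e]
        rw [neg_sq] at this ⊢
        linarith
      · have hv : 0 ≤ u - T1 := by linarith
        have e : dd T1 u = u - T1 := by
          unfold dd
          rw [max_eq_right (a := -u) (by linarith), max_eq_right hv]
        have h4 : T ≤ (1 + (u - T1)) ^ E := by
          have h5 : T ^ ε ≤ 1 + (u - T1) := by linarith
          calc T = (T ^ ε) ^ (1 / ε) := by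
                rw [← Real.rpow_mul hT0.le, mul_one_div_cancel hε.ne', Real.rpow_one]
            _ ≤ (1 + (u - T1)) ^ (1 / ε) := Real.rpow_le_rpow (by positivity) h5 (by positivity)
            _ ≤ (1 + (u - T1)) ^ (E : ℝ) := Real.rpow_le_rpow_of_exponent_le (by linarith) hE
            _ = _ := Real.rpow_natCast _ _
        have := tail hf hC k E (u := u) (y := u - T1) hv (by
          rw [abs_of_nonneg (by linarith)]
          have h6 : (1 + (u - T1)) ^ E ≤ (1 + (u - T1)) ^ (E + 1) :=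
            pow_le_pow_right₀ (by linarith) (by omega)
          have h7 : 1 + (u - T1) ≤ (1 + (u - T1)) ^ (E + 1) := le_self_pow₀ (by linarith) (by omega)
          linarith)
        rw [e]
        linarith
  have hint1 : Integrable fun u : ℝ => C3 * (1 + u ^ 2)⁻¹ := integrable_inv_one_add_sq.const_mul _
  have hint2 : Integrable fun u : ℝ => C3 * (1 + (u - T1) ^ 2)⁻¹ :=
    (integrable_inv_one_add_sq.comp_sub_right T1).const_mul _
  have hint0 : Integrable ((Icc 0 T2).indicator fun u => Real.pi * a u) := by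
    rw [integrable_indicator_iff measurableSet_Icc]
    exact (continuous_const.mul hac).continuousOn.integrableOn_compact isCompact_Icc
  have hint01 : Integrable fun u : ℝ => (Icc 0 T2).indicator (fun u => Real.pi * a u) u + C3 * (1 + u ^ 2)⁻¹ :=
    hint0.add hint1
  have hint : Integrable fun u : ℝ => (Icc 0 T2).indicator (fun u => Real.pi * a u) u + C3 * (1 + u ^ 2)⁻¹ +
      C3 * (1 + (u - T1) ^ 2)⁻¹ := hint01.add hint2
  have e0 : ∫ u, (Icc 0 T2).indicator (fun u => Real.pi * a u) u = Real.pi * ∫ u in (0:ℝ)..T2, a u := by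
    rw [integral_indicator measurableSet_Icc, integral_Icc_eq_integral_Ioc,
      ← intervalIntegral.integral_of_le hT20, intervalIntegral.integral_const_mul]
  have e1 : ∫ u : ℝ, C3 * (1 + u ^ 2)⁻¹ = C3 * Real.pi := by
    rw [integral_const_mul, integral_univ_inv_one_add_sq]
  have e2 : ∫ u : ℝ, C3 * (1 + (u - T1) ^ 2)⁻¹ = C3 * Real.pi := by
    rw [integral_const_mul, integral_sub_right_eq_self (fun u : ℝ => (1 + u ^ 2)⁻¹) T1,
      integral_univ_inv_one_add_sq]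
  have hI0 : 0 ≤ ∫ u in (0:ℝ)..T2, a u := intervalIntegral.integral_nonneg hT20 fun u _ => ha0 u
  rw [h2]
  calc ∫⁻ u, ∫⁻ t in Icc 0 T1, ENNReal.ofReal (ℓ * (a u / (1 + ((u - t) * ℓ) ^ 2) ^ (M + 1)))
      ≤ ∫⁻ u, ENNReal.ofReal ((Icc 0 T2).indicator (fun u => Real.pi * a u) u + C3 * (1 + u ^ 2)⁻¹ +
          C3 * (1 + (u - T1) ^ 2)⁻¹) := by
        refine lintegral_mono fun u => ?_
        exact (inner_bd (by linarith) (ha0 u) M).trans (ENNReal.ofReal_le_ofReal (h3 u))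
    _ = ENNReal.ofReal (∫ u, ((Icc 0 T2).indicator (fun u => Real.pi * a u) u + C3 * (1 + u ^ 2)⁻¹ +
          C3 * (1 + (u - T1) ^ 2)⁻¹)) := by
        refine (ofReal_integral_eq_lintegral_ofReal hint ?_).symm
        refine Eventually.of_forall fun u => ?_
        have : 0 ≤ (Icc 0 T2).indicator (fun u => Real.pi * a u) u :=
          indicator_nonneg (fun u _ => by have := ha0 u; positivity) u
        show (0:ℝ) ≤ _
        positivity
    _ ≤ _ := by
        apply ENNReal.ofReal_le_ofReal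
        rw [integral_add hint01 hint2, integral_add hint0 hint1, e0, e1, e2]
        show Real.pi * (∫ u in (0:ℝ)..T2, a u) + C3 * Real.pi + C3 * Real.pi ≤
          (Real.pi + 2 * Real.pi * C3) * ((∫ u in (0:ℝ)..T2, a u) + 1)
        nlinarith [mul_nonneg hpi.le hC30, mul_nonneg (mul_nonneg hpi.le hC30) hI0]

end Pool.Agent.K4H72.MZ
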