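import Mathlib
import Pool.Agent.K4H72.MZ.Mean

/-!
Derivatives of zeta near the critical line.
-/

set_option autoImplicit false

open MeasureTheory Filter Topology Set Complex
open scoped ENNReal

namespace Pool.Agent.K4H72.MZ

lemma deriv_bd {k j : ℕ} (hk : 1 ≤ k) {ℓ t0 A V : ℝ} (hℓ : 0 < ℓ) (hA1 : (A + 1) / ℓ ≤ 1 / 8)
    (h : ∀ w : ℂ, ‖w - ⟨1 / 2, t0⟩‖ ≤ (A + 1) / ℓ → ‖riemannZeta w‖ ^ k ≤ V) {z : ℂ}
    (hz : ‖z - ⟨1 / 2, t0⟩‖ ≤ A / ℓ) :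
    ‖iteratedDeriv j riemannZeta z‖ ^ k ≤ ((j.factorial : ℝ) * ℓ ^ j) ^ k * V := by
  have hadd : A / ℓ + 1 / ℓ = (A + 1) / ℓ := by rw [← add_div]
  have h1ℓ : 0 < 1 / ℓ := by positivity
  have hin : ∀ w : ℂ, ‖w - z‖ ≤ 1 / ℓ → ‖w - ⟨1 / 2, t0⟩‖ ≤ (A + 1) / ℓ := by
    intro w hw
    calc ‖w - ⟨1 / 2, t0⟩‖ = ‖(w - z) + (z - ⟨1 / 2, t0⟩)‖ := by ring_nf
      _ ≤ ‖w - z‖ + ‖z - ⟨1 / 2, t0⟩‖ := norm_add_le _ _
      _ ≤ (A + 1) / ℓ := by linarith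
  have hV : 0 ≤ V := (by positivity : (0:ℝ) ≤ ‖riemannZeta z‖ ^ k).trans (h z (hz.trans (by linarith)))
  set m : ℝ := V ^ ((k : ℝ)⁻¹) with hm
  have hm0 : 0 ≤ m := Real.rpow_nonneg hV _
  have hmk : m ^ k = V := Real.rpow_inv_natCast_pow hV (by omega)
  have hb : ∀ w ∈ Metric.sphere z (1 / ℓ), ‖riemannZeta w‖ ≤ m := by
    intro w hw
    rw [mem_sphere_iff_norm] at hw
    have h2 := h w (hin w hw.le)
    rw [← hmk] at h2
    exact (pow_le_pow_iff_left₀ (norm_nonneg _) hm0 (by omega)).1 h2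
  have hd : DiffContOnCl ℂ riemannZeta (Metric.ball z (1 / ℓ)) := by
    apply DifferentiableOn.diffContOnCl
    intro w hw
    have hw' := Metric.closure_ball_subset_closedBall hw
    rw [mem_closedBall_iff_norm] at hw'
    have h3 := near_facts ((hin w hw').trans hA1)
    exact (differentiableAt_riemannZeta h3.1).differentiableWithinAt
  have key := norm_iteratedDeriv_le_of_forall_mem_sphere_norm_le j h1ℓ hd hb
  have e : (j.factorial : ℝ) * m / (1 / ℓ) ^ j = ((j.factorial : ℝ) * ℓ ^ j) * m := by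
    rw [one_div, inv_pow, div_inv_eq_mul]
    ring
  rw [e] at key
  calc ‖iteratedDeriv j riemannZeta z‖ ^ k ≤ (((j.factorial : ℝ) * ℓ ^ j) * m) ^ k :=
        pow_le_pow_left₀ (norm_nonneg _) key _
    _ = _ := by rw [mul_pow, hmk]

/-- the pointwise bound for the derivatives -/
theorem deriv_pt {C : ℝ} {N : ℕ} (hf : Fn FZ N C) {k M : ℕ} (hk : 1 ≤ k) (hM : N * k + 1 ≤ M) {A : ℝ}
    (B : ℝ) (hA : 0 < A) : ∃ C' ℓ0 : ℝ, 0 ≤ C' ∧ 2 ≤ ℓ0 ∧ ∀ ℓ t0 : ℝ, ℓ0 ≤ ℓ →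
      |t0| + 4 ≤ Real.exp (ℓ + 2) → ∀ S : Finset ℂ, (∀ z ∈ S, ‖z - ⟨1 / 2, t0⟩‖ ≤ A / ℓ) →
      ∀ (j : ℕ) (w : ℂ), ‖w - ⟨1 / 2, t0⟩‖ ≤ A / ℓ →
        Real.exp (B * ((∑ z ∈ S, analyticOrderNatAt riemannZeta z : ℕ) : ℝ)) *
          ‖iteratedDeriv j riemannZeta w‖ ^ k ≤
          ((j.factorial : ℝ) * ℓ ^ j) ^ k * (C' * (ℓ * JJ riemannZeta k ℓ t0 M)) := by
  obtain ⟨C', ℓ0, hC', hℓ0, h⟩ := zeta_pt hf (k := k) (M := M) hk hM (A := A + 1) (B := B) (by linarith)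
  refine ⟨C', max ℓ0 (8 * (A + 1)), hC', hℓ0.trans (le_max_left _ _), fun ℓ t0 hℓ ht S hS j w hw => ?_⟩
  have h1 : ℓ0 ≤ ℓ := (le_max_left _ _).trans hℓ
  have hℓp : 0 < ℓ := by linarith
  have h2 : (A + 1) / ℓ ≤ 1 / 8 := by
    rw [div_le_iff₀ hℓp]
    have := (le_max_right _ _).trans hℓ
    linarith
  have hAA : A / ℓ ≤ (A + 1) / ℓ := div_le_div_of_nonneg_right (by linarith) hℓp.le
  set n : ℕ := ∑ z ∈ S, analyticOrderNatAt riemannZeta z with hn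
  have hE : 0 < Real.exp (B * (n : ℝ)) := Real.exp_pos _
  have key := deriv_bd (k := k) (j := j) hk hℓp h2 (t0 := t0)
    (V := (C' * (ℓ * JJ riemannZeta k ℓ t0 M)) / Real.exp (B * (n : ℝ))) (fun z hz => by
      rw [le_div_iff₀ hE, mul_comm]
      exact h ℓ t0 h1 ht S (fun z hz => (hS z hz).trans hAA) z hz) hw
  calc Real.exp (B * (n : ℝ)) * ‖iteratedDeriv j riemannZeta w‖ ^ k
      ≤ Real.exp (B * (n : ℝ)) * (((j.factorial : ℝ) * ℓ ^ j) ^ k *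
          ((C' * (ℓ * JJ riemannZeta k ℓ t0 M)) / Real.exp (B * (n : ℝ)))) :=
        mul_le_mul_of_nonneg_left key hE.le
    _ = _ := by field_simp

end Pool.Agent.K4H72.MZ
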